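import Pool.Agent.Helper47.SR.Goals

/-! SR-N2 (MP_0130f7_co): numerical inequality, `√n/4 < m ≤ 7n/20 - 1`. -/

namespace Pool.Agent.Helper47.SR

open Finset

/-- Vandermonde. -/
lemma N2_vand (h j : ℕ) : (h.choose j) ^ 2 ≤ (2 * h).choose (2 * j) := by
  rw [two_mul, Nat.add_choose_eq, sq]
  have hm : (j, j) ∈ antidiagonal (2 * j) := by simp [two_mul]
  exact single_le_sum (f := fun ij : ℕ × ℕ => h.choose ij.1 * h.choose ij.2) (fun _ _ => Nat.zero_le _) hm

lemma N2_near (n m k : ℕ) (hm : m ≤ n) (hn : 1 ≤ n) (h1 : k ≤ m + 1) (h2 : m ≤ k + 1) :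
    n.choose k ≤ n * n.choose m := by
  have hcase : k = m ∨ k = m + 1 ∨ m = k + 1 := by omega
  rcases hcase with rfl | rfl | rfl
  · exact Nat.le_mul_of_pos_left _ hn
  · have h := Nat.choose_succ_right_eq n m
    have h3 : n.choose (m + 1) ≤ n.choose (m + 1) * (m + 1) := Nat.le_mul_of_pos_right _ (by omega)
    calc n.choose (m + 1) ≤ n.choose (m + 1) * (m + 1) := h3
      _ = n.choose m * (n - m) := h
      _ ≤ n.choose m * n := Nat.mul_le_mul_left _ (Nat.sub_le _ _)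
      _ = n * n.choose m := mul_comm _ _
  · have h := Nat.choose_succ_right_eq n k
    calc n.choose k ≤ n.choose k * (n - k) := Nat.le_mul_of_pos_right _ (by omega)
      _ = n.choose (k + 1) * (k + 1) := h.symm
      _ ≤ n.choose (k + 1) * n := Nat.mul_le_mul_left _ hm
      _ = n * n.choose (k + 1) := mul_comm _ _

lemma N2_half (n m j : ℕ) (hm : m ≤ n) (hn : 1 ≤ n) (h1 : 2 * j ≤ m + 1) (h2 : m ≤ 2 * j + 1) :
    ((n / 2).choose j) ^ 2 ≤ n * n.choose m := by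
  refine (N2_vand (n / 2) j).trans ?_
  refine (Nat.choose_le_choose (2 * j) (show 2 * (n / 2) ≤ n by omega)).trans ?_
  exact N2_near n m (2 * j) hm hn h1 h2

lemma N2_ratio (n m : ℕ) (h : 2 * m + 4 ≤ n) :
    n.choose m * (n - 2 * m - 3) ^ m ≤ (n - m - 4).choose m * (n - m + 1) ^ m := by
  have key : n.descFactorial m * (n - 2 * m - 3) ^ m ≤
      (n - m - 4).descFactorial m * (n - m + 1) ^ m := by
    rw [Nat.descFactorial_eq_prod_range, Nat.descFactorial_eq_prod_range]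
    have c1 : ∀ x : ℕ, x ^ m = ∏ _i ∈ range m, x := by intro x; simp
    rw [c1, c1, ← prod_mul_distrib, ← prod_mul_distrib]
    refine prod_le_prod' fun k hk => ?_
    rw [mem_range] at hk
    obtain ⟨d, rfl⟩ : ∃ d, n = 2 * m + 4 + d := ⟨n - (2 * m + 4), by omega⟩
    obtain ⟨e, rfl⟩ : ∃ e, m = k + 1 + e := ⟨m - (k + 1), by omega⟩
    have s1 : 2 * (k + 1 + e) + 4 + d - k = k + 2 * e + 6 + d := by omega
    have s2 : 2 * (k + 1 + e) + 4 + d - 2 * (k + 1 + e) - 3 = d + 1 := by omega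
    have s3 : 2 * (k + 1 + e) + 4 + d - (k + 1 + e) - 4 - k = e + d + 1 := by omega
    have s4 : 2 * (k + 1 + e) + 4 + d - (k + 1 + e) + 1 = k + e + d + 6 := by omega
    rw [s1, s2, s3, s4]
    nlinarith [Nat.zero_le (e * e), Nat.zero_le (e * d), Nat.zero_le (e * k), Nat.zero_le (k * d)]
  rw [Nat.descFactorial_eq_factorial_mul_choose, Nat.descFactorial_eq_factorial_mul_choose] at key
  refine Nat.le_of_mul_le_mul_left ?_ (Nat.factorial_pos m)
  calc _ = m.factorial * n.choose m * (n - 2 * m - 3) ^ m := by ring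
    _ ≤ _ := key
    _ = _ := by ring

/-- `(11/5)^m (n-m)^(n-m) ≤ n^(n-m)` for `m ≤ 7n/20`. -/
lemma N2_exp (n m : ℕ) (h : 20 * m ≤ 7 * n) (hn : 1 ≤ n) :
    ((11 : ℝ) / 5) ^ m * ((n - m : ℕ) : ℝ) ^ (n - m) ≤ (n : ℝ) ^ (n - m) := by
  have hmn : m < n := by omega
  have hD : (0 : ℝ) < ((n - m : ℕ) : ℝ) := by
    have : 0 < n - m := by omega
    exact_mod_cast this
  have hN : (0 : ℝ) < (n : ℝ) := by exact_mod_cast hn
  set D : ℝ := ((n - m : ℕ) : ℝ) with hDdef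
  have hND : (n : ℝ) = D + m := by
    rw [hDdef]; rw [Nat.cast_sub hmn.le]; ring
  have hx : (13 : ℝ) / 7 * (m / D) ≤ 1 := by
    rw [mul_div, div_le_one hD]
    have : (20 * m : ℝ) ≤ 7 * n := by exact_mod_cast h
    rw [hND] at this
    linarith
  have hx0 : (0 : ℝ) ≤ 13 / 7 * (m / D) := by positivity
  set s : ℝ := 13 / 7 * (m / D) with hs
  have hconc := strictConcaveOn_log_Ioi.concaveOn.2 (Set.mem_Ioi.2 (show (0 : ℝ) < 1 by norm_num))
    (Set.mem_Ioi.2 (show (0 : ℝ) < 20 / 13 by norm_num)) (show (0 : ℝ) ≤ 1 - s by linarith) hx0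
    (by ring : (1 - s) + s = 1)
  simp only [smul_eq_mul, Real.log_one, mul_zero, zero_add, mul_one] at hconc
  have e1 : 1 - s + s * (20 / 13) = (n : ℝ) / D := by
    rw [hs, hND]; field_simp; ring
  rw [e1] at hconc
  have hlog : Real.log (11 / 5) ≤ 13 / 7 * Real.log (20 / 13) := by
    have : Real.log ((11 / 5) ^ 7) ≤ Real.log ((20 / 13) ^ 13) :=
      Real.log_le_log (by norm_num) (by norm_num)
    rw [Real.log_pow, Real.log_pow] at this
    push_cast at this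
    linarith
  have hmain : (m : ℝ) * Real.log (11 / 5) ≤ D * Real.log (n / D) := by
    calc (m : ℝ) * Real.log (11 / 5) ≤ m * (13 / 7 * Real.log (20 / 13)) := by gcongr
      _ = D * (s * Real.log (20 / 13)) := by rw [hs]; field_simp
      _ ≤ D * Real.log (n / D) := by gcongr
  have hpow : ((11 : ℝ) / 5) ^ m ≤ ((n : ℝ) / D) ^ (n - m) := by
    rw [← Real.log_le_log_iff (by positivity) (by positivity), Real.log_pow, Real.log_pow]
    exact hmain
  rw [div_pow (n : ℝ) D, le_div_iff₀ (by positivity)] at hpow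
  exact hpow

lemma N2_poly (n m : ℝ) (hm : 200 ≤ m) (h : 20 * (m + 1) ≤ 7 * n) :
    13 * ((n - m + 1) ^ 2 * m) ≤ 22 * (n * (n - 2 * m - 3) ^ 2) := by
  obtain ⟨s, hs⟩ : ∃ s, n = (20 * (m + 1) + s) / 7 := ⟨7 * n - 20 * (m + 1), by ring⟩
  obtain ⟨u, hu⟩ : ∃ u, m = u + 200 := ⟨m - 200, by ring⟩
  have hs0 : 0 ≤ s := by rw [hs] at h; linarith
  have hu0 : 0 ≤ u := by linarith
  rw [hs, hu]
  have e : 22 * ((20 * (u + 200 + 1) + s) / 7 * ((20 * (u + 200 + 1) + s) / 7 - 2 * (u + 200) - 3) ^ 2)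
      - 13 * (((20 * (u + 200 + 1) + s) / 7 - (u + 200) + 1) ^ 2 * (u + 200)) ≥ 0 := by
    ring_nf
    positivity
  linarith

theorem goal_N2 (hENT : Goal_ENT) : Goal_N2 := by
  -- growth
  have hlim := tendsto_pow_const_div_const_pow_of_one_lt 12 (show (1 : ℝ) < 13 / 10 by norm_num)
  have hev := hlim.eventually (gt_mem_nhds (show (0 : ℝ) < 1 / 2 ^ 24 by positivity))
  obtain ⟨M, hM⟩ := Filter.eventually_atTop.1 hev
  refine ⟨16 * (M + 200) ^ 2, fun n hn m hnm h1 => ?_⟩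
  have hmM : M + 200 < m := by
    by_contra hcon
    push Not at hcon
    have : m ^ 2 ≤ (M + 200) ^ 2 := Nat.pow_le_pow_left hcon 2
    omega
  have hgrow : ((n : ℝ)) ^ 3 * ((n : ℝ) + 1) ^ 3 ≤ ((13 : ℝ) / 10) ^ m := by
    have h2 := hM m (by omega)
    have hpos : (0 : ℝ) < (13 / 10) ^ m := by positivity
    rw [div_lt_div_iff₀ hpos (by positivity)] at h2
    have hn1 : (n : ℝ) + 1 ≤ 16 * (m : ℝ) ^ 2 := by exact_mod_cast hnm
    calc ((n : ℝ)) ^ 3 * ((n : ℝ) + 1) ^ 3 ≤ (16 * (m : ℝ) ^ 2) ^ 3 * (16 * (m : ℝ) ^ 2) ^ 3 := by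
          gcongr
          linarith
      _ = (m : ℝ) ^ 12 * 2 ^ 24 := by ring
      _ ≤ _ := by linarith
  have hmn : 2 * m + 4 ≤ n := by omega
  have hn0 : 1 ≤ n := by omega
  -- squares of the halves
  have hc1 := N2_half n m ((m + 1) / 2) (by omega) hn0 (by omega) (by omega)
  have hc2 := N2_half n m (m / 2) (by omega) hn0 (by omega) (by omega)
  set c1 := (n / 2).choose ((m + 1) / 2) with hc1def
  set c2 := (n / 2).choose (m / 2) with hc2def
  set N := n.choose m with hNdef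
  set K := (n - m - 4).choose m with hKdef
  have hent := hENT n m (by omega)
  rw [← hNdef] at hent
  have hrat := N2_ratio n m hmn
  rw [← hNdef, ← hKdef] at hrat
  have hexp := N2_exp n m (by omega) hn0
  have hpoly := N2_poly n m (by exact_mod_cast (show 200 ≤ m by omega)) (by exact_mod_cast h1)
  -- real versions
  set D : ℝ := ((n - m : ℕ) : ℝ) with hDdef
  have hD0 : (0 : ℝ) < D := by
    have : 0 < n - m := by omega
    rw [hDdef]; exact_mod_cast this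
  have hnR : (0 : ℝ) < n := by exact_mod_cast hn0
  have hmR : (0 : ℝ) < m := by
    have : 0 < m := by omega
    exact_mod_cast this
  set R : ℝ := ((n - 2 * m - 3 : ℕ) : ℝ) with hRdef
  set Q : ℝ := ((n - m + 1 : ℕ) : ℝ) with hQdef
  have hR1 : R = (n : ℝ) - 2 * m - 3 := by
    rw [hRdef, Nat.cast_sub (by omega), Nat.cast_sub (by omega)]; push_cast; ring
  have hQ1 : Q = (n : ℝ) - m + 1 := by
    rw [hQdef, Nat.cast_add, Nat.cast_sub (by omega)]; push_cast; ring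
  have hR0 : (0 : ℝ) < R := by
    have : 0 < n - 2 * m - 3 := by omega
    rw [hRdef]; exact_mod_cast this
  have hQ0 : (0 : ℝ) < Q := by
    have : 0 < n - m + 1 := by omega
    rw [hQdef]; exact_mod_cast this
  rw [← hR1, ← hQ1] at hpoly
  have hentR : (n : ℝ) ^ n ≤ (n + 1) * (N * (m : ℝ) ^ m * D ^ (n - m)) := by
    rw [hDdef]; exact_mod_cast hent
  have hratR : (N : ℝ) * R ^ m ≤ K * Q ^ m := by
    rw [hRdef, hQdef]; exact_mod_cast hrat
  have hsplit : (n : ℝ) ^ n = (n : ℝ) ^ m * (n : ℝ) ^ (n - m) := by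
    rw [← pow_add]; congr 1; omega
  -- N ≥ ...
  have hN1 : ((n : ℝ) * (11 / 5)) ^ m ≤ (n + 1) * (N * (m : ℝ) ^ m) := by
    have hDp : (0 : ℝ) < D ^ (n - m) := by positivity
    refine le_of_mul_le_mul_right ?_ hDp
    calc ((n : ℝ) * (11 / 5)) ^ m * D ^ (n - m) = (n : ℝ) ^ m * ((11 / 5) ^ m * D ^ (n - m)) := by
          rw [mul_pow]; ring
      _ ≤ (n : ℝ) ^ m * (n : ℝ) ^ (n - m) := by gcongr
      _ = (n : ℝ) ^ n := hsplit.symm
      _ ≤ _ := hentR
      _ = _ := by ring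
  have hN2 : (n : ℝ) ^ 3 * (n + 1) ^ 2 * (Q ^ m) ^ 2 ≤ N * (R ^ m) ^ 2 := by
    have hmp : (0 : ℝ) < (n + 1) * (m : ℝ) ^ m := by positivity
    refine le_of_mul_le_mul_left ?_ hmp
    calc (n + 1) * (m : ℝ) ^ m * ((n : ℝ) ^ 3 * (n + 1) ^ 2 * (Q ^ m) ^ 2)
        = ((n : ℝ) ^ 3 * (n + 1) ^ 3) * (Q ^ 2 * m) ^ m := by
          rw [mul_pow, ← pow_mul, ← pow_mul]; ring
      _ ≤ (13 / 10) ^ m * (Q ^ 2 * m) ^ m := by gcongr
      _ = (13 / 10 * (Q ^ 2 * m)) ^ m := by rw [mul_pow (13 / 10 : ℝ)]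
      _ ≤ (n * (11 / 5) * R ^ 2) ^ m := by
          refine pow_le_pow_left₀ (by positivity) ?_ m
          linarith
      _ = (n * (11 / 5)) ^ m * (R ^ m) ^ 2 := by rw [mul_pow, ← pow_mul, ← pow_mul, mul_comm m 2]
      _ ≤ ((n + 1) * (N * (m : ℝ) ^ m)) * (R ^ m) ^ 2 := by gcongr
      _ = _ := by ring
  -- squares
  have hNpos : (0 : ℝ) < N := by
    have : 0 < N := by rw [hNdef]; exact Nat.choose_pos (by omega)
    exact_mod_cast this
  have hK2 : (n : ℝ) ^ 3 * (n + 1) ^ 2 * N ≤ (K : ℝ) ^ 2 := by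
    have hQp : (0 : ℝ) < (Q ^ m) ^ 2 := by positivity
    refine le_of_mul_le_mul_right ?_ hQp
    calc (n : ℝ) ^ 3 * (n + 1) ^ 2 * N * (Q ^ m) ^ 2 = N * ((n : ℝ) ^ 3 * (n + 1) ^ 2 * (Q ^ m) ^ 2) := by ring
      _ ≤ N * (N * (R ^ m) ^ 2) := by gcongr
      _ = (N * R ^ m) ^ 2 := by ring
      _ ≤ (K * Q ^ m) ^ 2 := by gcongr
      _ = _ := by ring
  set c := max c1 c2 with hcdef
  have hc : c ^ 2 ≤ n * N := by
    rcases max_choice c1 c2 with h | h
    · rw [hcdef, h]; exact hc1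
    · rw [hcdef, h]; exact hc2
  have hL : (m + 1) * (n * c1) + (n - m) * (n * c2) ≤ n * (n + 1) * c := by
    calc (m + 1) * (n * c1) + (n - m) * (n * c2) ≤ (m + 1) * (n * c) + (n - m) * (n * c) := by
          gcongr
          · exact le_max_left _ _
          · exact le_max_right _ _
      _ = (m + 1 + (n - m)) * (n * c) := by ring
      _ = n * (n + 1) * c := by
          have : m + 1 + (n - m) = n + 1 := by omega
          rw [this]; ring
  refine hL.trans ?_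
  have hfin : (n * (n + 1) * c) ^ 2 ≤ K ^ 2 := by
    have : ((n * (n + 1) * c : ℕ) : ℝ) ^ 2 ≤ (K : ℝ) ^ 2 := by
      refine le_trans ?_ hK2
      have hcR : (c : ℝ) ^ 2 ≤ n * N := by exact_mod_cast hc
      push_cast
      calc ((n : ℝ) * (n + 1) * c) ^ 2 = (n : ℝ) ^ 2 * (n + 1) ^ 2 * c ^ 2 := by ring
        _ ≤ (n : ℝ) ^ 2 * (n + 1) ^ 2 * (n * N) := by gcongr
        _ = _ := by ring
    exact_mod_cast this
  exact (Nat.pow_le_pow_iff_left (by norm_num)).1 hfin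

end Pool.Agent.Helper47.SR
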