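import Pool.Agent.Helper47.SR.Goals

/-! SR-N4 (MP_0130f7_co): numerical inequality near the middle. -/

namespace Pool.Agent.Helper47.SR

open Finset

lemma N4_pw : ∀ t : ℕ, 16 ≤ t → t ^ 4 ≤ 2 ^ t := by
  intro t ht
  induction t, ht using Nat.le_induction with
  | base => norm_num
  | succ t ht ih =>
    have h1 : (t + 1) ^ 4 ≤ 2 * t ^ 4 := by nlinarith [mul_self_nonneg (t : ℤ), pow_pos (show 0 < t by omega) 3, pow_pos (show 0 < t by omega) 2, Nat.mul_le_mul ht (le_refl (t ^ 3)), Nat.mul_le_mul ht (le_refl (t ^ 2)), Nat.mul_le_mul ht (le_refl t)]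
    calc (t + 1) ^ 4 ≤ 2 * t ^ 4 := h1
      _ ≤ 2 * 2 ^ t := by omega
      _ = 2 ^ (t + 1) := by ring

lemma N4_ent (hENT : Goal_ENT) (a b c e t : ℕ) (hab : a = b + c) (ht : 0 < t)
    (hnum : 2 ^ e * (b ^ b * c ^ c) ≤ a ^ a) (hb : 0 < b) (hc : 0 < c) :
    2 ^ (e * t) ≤ (a * t + 1) * (a * t).choose (b * t) := by
  have h := hENT (a * t) (b * t) (Nat.mul_le_mul_right t (by omega))
  have hsub : a * t - b * t = c * t := by subst hab; rw [add_mul]; omega
  rw [hsub] at h
  have e1 : (a * t) ^ (a * t) = t ^ (a * t) * (a ^ a) ^ t := by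
    rw [mul_pow, ← pow_mul a, mul_comm]
  have e2 : (b * t) ^ (b * t) = t ^ (b * t) * (b ^ b) ^ t := by
    rw [mul_pow, ← pow_mul b, mul_comm]
  have e3 : (c * t) ^ (c * t) = t ^ (c * t) * (c ^ c) ^ t := by
    rw [mul_pow, ← pow_mul c, mul_comm]
  rw [e1, e2, e3] at h
  have e4 : t ^ (a * t) = t ^ (b * t) * t ^ (c * t) := by
    rw [← pow_add, ← add_mul, hab]
  rw [e4] at h
  have hpos : 0 < t ^ (b * t) * t ^ (c * t) := by positivity
  have h2 : (a ^ a) ^ t ≤ (a * t + 1) * (a * t).choose (b * t) * (b ^ b * c ^ c) ^ t := by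
    refine Nat.le_of_mul_le_mul_left ?_ hpos
    calc _ ≤ _ := h
      _ = _ := by rw [mul_pow (b ^ b) (c ^ c) t]; ring
  have h3 : (2 ^ e * (b ^ b * c ^ c)) ^ t ≤ (a ^ a) ^ t := Nat.pow_le_pow_left hnum t
  rw [mul_pow, ← pow_mul] at h3
  have hpos2 : 0 < (b ^ b * c ^ c) ^ t := by positivity
  exact Nat.le_of_mul_le_mul_right (h3.trans h2) hpos2

theorem goal_N4 (hENT : Goal_ENT) : Goal_N4 := by
  refine ⟨200000, fun n hn m h1 h2 => ?_⟩
  set t := n / 200 with ht
  have ht1 : 200 * t ≤ n := by omega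
  have ht2 : n < 200 * t + 200 := by omega
  have ht3 : 1000 ≤ t := by omega
  have hm70 : 70 * t ≤ m := by omega
  have hpw := N4_pw t (by omega)
  have hbig : 2 ^ 250 ≤ 2 ^ t := Nat.pow_le_pow_right (by norm_num) (by omega)
  have hc : 201 ^ 3 * 400 * 2 ^ 100 ≤ 2 ^ 250 := by norm_num
  have hn3 : n ^ 3 ≤ (201 * t) ^ 3 := Nat.pow_le_pow_left (by omega) 3
  have hn2 : n / 2 ≤ 100 * t + 100 := by omega
  have key : ∀ a e C : ℕ, a + 1 ≤ 132 → 103 ≤ e → 2 ^ (e * t) ≤ (a * t + 1) * C →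
      3 * n ^ 3 * 2 ^ (n / 2) ≤ C := by
    intro a e C ha he hC
    have hpos : 0 < a * t + 1 := by omega
    refine Nat.le_of_mul_le_mul_left ?_ hpos
    refine le_trans ?_ hC
    have hA : a * t + 1 ≤ 132 * t := by nlinarith
    have hB : 2 ^ (n / 2) ≤ 2 ^ (100 * t) * 2 ^ 100 := by
      rw [← pow_add]; exact Nat.pow_le_pow_right (by norm_num) hn2
    have hC2 : 2 ^ (100 * t) * (2 ^ t * 2 ^ t) ≤ 2 ^ (e * t) := by
      rw [← pow_add, ← pow_add]; exact Nat.pow_le_pow_right (by norm_num) (by nlinarith)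
    calc (a * t + 1) * (3 * n ^ 3 * 2 ^ (n / 2))
        ≤ (132 * t) * (3 * (201 * t) ^ 3 * (2 ^ (100 * t) * 2 ^ 100)) := by gcongr
      _ = 2 ^ (100 * t) * ((201 ^ 3 * 396 * 2 ^ 100) * t ^ 4) := by ring
      _ ≤ 2 ^ (100 * t) * (2 ^ t * 2 ^ t) := by
          refine Nat.mul_le_mul_left _ (Nat.mul_le_mul ?_ hpw)
          refine le_trans ?_ (hc.trans hbig)
          norm_num
      _ ≤ 2 ^ (e * t) := hC2
  refine ⟨40 * t, 31 * t, by omega, ?_, ?_, ?_, ?_⟩
  · have hE := N4_ent hENT 110 40 70 104 t (by norm_num) (by omega) (by norm_num) (by norm_num) (by norm_num)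
    have h3 := key 110 104 _ (by norm_num) (by norm_num) hE
    refine h3.trans ?_
    have h4 : (m + 40 * t).choose m = (m + 40 * t).choose (40 * t) := by
      rw [Nat.choose_symm_add]
    rw [h4]
    exact Nat.choose_le_choose _ (by omega)
  · have hE := N4_ent hENT 131 31 100 103 t (by norm_num) (by omega) (by norm_num) (by norm_num) (by norm_num)
    have h3 := key 131 103 _ (by norm_num) (by norm_num) hE
    refine h3.trans ?_
    have h4 : (n - m + 31 * t).choose (n - m) = (n - m + 31 * t).choose (31 * t) := by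
      rw [Nat.choose_symm_add]
    rw [h4]
    exact Nat.choose_le_choose _ (by omega)
  · obtain ⟨d, hd⟩ : ∃ d, n = m + d := ⟨n - m, by omega⟩
    have hd2 : n - m = d := by omega
    rw [hd2]
    have a1 : (7 * (m + d) : ℝ) < 20 * (m + 1) := by
      have : 7 * (m + d) < 20 * (m + 1) := by omega
      exact_mod_cast this
    have a2 : (2 * (m + 1) : ℝ) ≤ m + d := by
      have : 2 * (m + 1) ≤ m + d := by omega
      exact_mod_cast this
    have a3 : (200 * t : ℝ) ≤ m + d := by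
      have : 200 * t ≤ m + d := by omega
      exact_mod_cast this
    have a4 : (200000 : ℝ) ≤ m + d := by
      have : 200000 ≤ m + d := by omega
      exact_mod_cast this
    have a5 : (0 : ℝ) ≤ t := by positivity
    have a6 : (0 : ℝ) ≤ m := by positivity
    have : (22 * ((31 * t + 1) * (40 * t + m)) : ℝ) ≤ 10 * (d * (m + 1)) := by
      have b1 : (22 * ((31 * t + 1) * (40 * t + m)) : ℝ) ≤
          22 * ((31 * ((m + d) / 200) + 1) * (40 * ((m + d) / 200) + m)) := by
        have : (t : ℝ) ≤ (m + d) / 200 := by linarith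
        gcongr
      refine b1.trans ?_
      set N : ℝ := m + d with hN
      have hd' : (d : ℝ) = N - m := by rw [hN]; ring
      rw [hd']
      nlinarith [mul_nonneg (sub_nonneg.2 a1.le) (sub_nonneg.2 a2), mul_nonneg (sub_nonneg.2 a4) (sub_nonneg.2 a4), mul_nonneg (sub_nonneg.2 a4) (sub_nonneg.2 a2), mul_nonneg (sub_nonneg.2 a4) (sub_nonneg.2 a1.le)]
    exact_mod_cast this
  · have hn3' : n / 3 ≤ 67 * t + 67 := by omega
    calc 22 * n ^ 3 * 2 ^ (n / 3) ≤ 22 * (201 * t) ^ 3 * (2 ^ (67 * t) * 2 ^ 67) := by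
          rw [← pow_add]
          gcongr
          norm_num
      _ = 2 ^ (67 * t) * ((22 * 201 ^ 3 * 2 ^ 67) * t ^ 3) := by ring
      _ ≤ 2 ^ (67 * t) * (2 ^ t * 2 ^ t) := by
          refine Nat.mul_le_mul_left _ (Nat.mul_le_mul ?_ ?_)
          · refine le_trans ?_ hbig
            norm_num
          · exact le_trans (Nat.pow_le_pow_right (by omega) (by norm_num)) hpw
      _ ≤ 2 ^ m := by
          rw [← pow_add, ← pow_add]; exact Nat.pow_le_pow_right (by norm_num) (by omega)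

end Pool.Agent.Helper47.SR
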